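import Pool.Agent.Lib_helper11.GK.Defs

/-!
GK, block DICK: growth of a down-closed set of exponent vectors.
-/

set_option autoImplicit false

namespace Pool.Agent.GK

theorem dick_pr {d : ℕ} (w : Fin d → ℕ) (hw : ∀ i, 1 ≤ w i) (E : Set (Fin d → ℕ))
    (hE : ∀ a ∈ E, ∀ b ≤ a, b ∈ E) (h0 : 0 ∈ E) :
    ∃ (r : ℕ) (c C : ℝ), 0 < c ∧ ∀ n : ℕ, 1 ≤ n →
      c * (n : ℝ) ^ r ≤ (Nat.card {a : Fin d → ℕ // a ∈ E ∧ ∑ i, a i * w i ≤ n} : ℝ) ∧
      (Nat.card {a : Fin d → ℕ // a ∈ E ∧ ∑ i, a i * w i ≤ n} : ℝ) ≤ C * (n : ℝ) ^ r := by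
  classical
  let good : Finset (Fin d) → Prop := fun S => ∀ b : Fin d → ℕ, (∀ i, i ∉ S → b i = 0) → b ∈ E
  have hgood0 : good ∅ := by
    intro b hb
    have : b = 0 := by
      funext i
      exact hb i (Finset.notMem_empty i)
    rw [this]
    exact h0
  obtain ⟨S₀, hS₀, hmax⟩ := Finset.exists_max_image (Finset.univ.filter good) Finset.card
    ⟨∅, by simp [hgood0]⟩
  have hS₀g : good S₀ := (Finset.mem_filter.1 hS₀).2
  have hbad : ∀ S : Finset (Fin d), ∃ b : Fin d → ℕ, (∀ i, i ∉ S → b i = 0) ∧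
      (¬ good S → b ∉ E) := by
    intro S
    by_cases h : good S
    · exact ⟨0, fun _ _ => rfl, fun h' => absurd h h'⟩
    · have h' : ∃ b : Fin d → ℕ, (∀ i, i ∉ S → b i = 0) ∧ b ∉ E := by
        by_contra hcon
        apply h
        intro b hb
        by_contra hbE
        exact hcon ⟨b, hb, hbE⟩
      obtain ⟨b, hb, hbE⟩ := h'
      exact ⟨b, hb, fun _ => hbE⟩
  choose b hb hbE using hbad
  obtain ⟨K, hK⟩ : ∃ K : ℕ, ∀ S i, b S i ≤ K := by
    refine ⟨∑ S : Finset (Fin d), ∑ i, b S i, fun S i => ?_⟩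
    calc b S i ≤ ∑ i, b S i :=
          Finset.single_le_sum (f := fun i => b S i) (fun _ _ => Nat.zero_le _) (Finset.mem_univ i)
      _ ≤ ∑ S : Finset (Fin d), ∑ i, b S i :=
          Finset.single_le_sum (f := fun S => ∑ i, b S i) (fun _ _ => Nat.zero_le _)
            (Finset.mem_univ S)
  have key : ∀ a ∈ E, good (Finset.univ.filter (fun i => K ≤ a i)) := by
    intro a ha
    by_contra hcon
    refine hbE _ hcon (hE a ha _ (fun i => ?_))
    by_cases hi : K ≤ a i
    · exact (hK _ i).trans hi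
    · rw [hb _ i (by simp [hi])]
      exact Nat.zero_le _
  -- the counting sets
  let box : Finset (Fin d) → ℕ → ℕ → Finset (Fin d → ℕ) := fun S p q =>
    Fintype.piFinset (fun i => if i ∈ S then Finset.range (p + 1) else Finset.range (q + 1))
  have hbox : ∀ S p q, (box S p q).card = (p + 1) ^ S.card * (q + 1) ^ (Sᶜ).card := by
    intro S p q
    rw [Fintype.card_piFinset]
    have : ∀ i, (if i ∈ S then Finset.range (p + 1) else Finset.range (q + 1)).card =
        if i ∈ S then p + 1 else q + 1 := by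
      intro i
      split_ifs <;> simp
    simp_rw [this]
    rw [Finset.prod_ite]
    simp [Finset.filter_not, Finset.compl_eq_univ_sdiff]
  have hle : ∀ (a : Fin d → ℕ) (n : ℕ), ∑ i, a i * w i ≤ n → ∀ i, a i ≤ n := by
    intro a n h i
    calc a i = a i * 1 := (mul_one _).symm
      _ ≤ a i * w i := Nat.mul_le_mul_left _ (hw i)
      _ ≤ ∑ i, a i * w i :=
          Finset.single_le_sum (f := fun i => a i * w i) (fun _ _ => Nat.zero_le _)
            (Finset.mem_univ i)
      _ ≤ n := h
  have hcount : ∀ n : ℕ, Nat.card {a : Fin d → ℕ // a ∈ E ∧ ∑ i, a i * w i ≤ n} =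
      ((Fintype.piFinset (fun _ : Fin d => Finset.range (n + 1))).filter
        (fun a => a ∈ E ∧ ∑ i, a i * w i ≤ n)).card := by
    intro n
    refine Nat.subtype_card _ (fun a => ?_)
    rw [Finset.mem_filter, Fintype.mem_piFinset]
    refine ⟨fun h => h.2, fun h => ⟨fun i => ?_, h⟩⟩
    rw [Finset.mem_range]
    exact Nat.lt_succ_of_le (hle a n h.2 i)
  obtain ⟨M, hM1, hM⟩ : ∃ M : ℕ, 1 ≤ M ∧ ∑ i, w i ≤ M := ⟨∑ i, w i + 1, by omega, by omega⟩
  have hM0 : (0 : ℝ) < (M : ℝ) := by exact_mod_cast hM1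
  refine ⟨S₀.card, (1 / (M : ℝ)) ^ S₀.card, 2 ^ S₀.card * ((2 : ℝ) ^ d * ((K : ℝ) + 1) ^ d),
    by positivity, fun n hn => ?_⟩
  have hn0 : (0 : ℝ) < (n : ℝ) := by exact_mod_cast hn
  have hn1 : (1 : ℝ) ≤ (n : ℝ) := by exact_mod_cast hn
  rw [hcount n]
  constructor
  · -- lower bound
    have hsub : box S₀ (n / M) 0 ⊆
        ((Fintype.piFinset (fun _ : Fin d => Finset.range (n + 1))).filter
          (fun a => a ∈ E ∧ ∑ i, a i * w i ≤ n)) := by
      intro a ha
      rw [Fintype.mem_piFinset] at ha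
      have ha1 : ∀ i, a i ≤ n / M := by
        intro i
        have := ha i
        by_cases hi : i ∈ S₀
        · rw [if_pos hi, Finset.mem_range] at this
          omega
        · rw [if_neg hi, Finset.mem_range] at this
          have h1 : a i = 0 := by omega
          rw [h1]
          exact Nat.zero_le _
      have ha2 : ∀ i, i ∉ S₀ → a i = 0 := by
        intro i hi
        have := ha i
        rw [if_neg hi, Finset.mem_range] at this
        omega
      have hsum : ∑ i, a i * w i ≤ n := by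
        calc ∑ i, a i * w i ≤ ∑ i, (n / M) * w i :=
              Finset.sum_le_sum (fun i _ => Nat.mul_le_mul_right _ (ha1 i))
          _ = (n / M) * ∑ i, w i := by rw [Finset.mul_sum]
          _ ≤ (n / M) * M := Nat.mul_le_mul_left _ hM
          _ ≤ n := Nat.div_mul_le_self n M
      rw [Finset.mem_filter, Fintype.mem_piFinset]
      refine ⟨fun i => ?_, hS₀g a ha2, hsum⟩
      rw [Finset.mem_range]
      exact Nat.lt_succ_of_le (hle a n hsum i)
    have h1 := Finset.card_le_card hsub
    rw [hbox] at h1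
    simp only [Nat.zero_add, one_pow, mul_one] at h1
    have h2 : (n : ℝ) / M ≤ ((n / M : ℕ) : ℝ) + 1 := by
      rw [div_le_iff₀ hM0]
      have h3 : n < M * (n / M + 1) := Nat.lt_mul_div_succ n hM1
      have h4 : (n : ℝ) < (M : ℝ) * (((n / M : ℕ) : ℝ) + 1) := by exact_mod_cast h3
      linarith
    calc (1 / (M : ℝ)) ^ S₀.card * (n : ℝ) ^ S₀.card = ((n : ℝ) / M) ^ S₀.card := by
          rw [← mul_pow]
          congr 1
          ring
      _ ≤ (((n / M : ℕ) : ℝ) + 1) ^ S₀.card := pow_le_pow_left₀ (by positivity) h2 _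
      _ = (((n / M + 1) ^ S₀.card : ℕ) : ℝ) := by push_cast; ring
      _ ≤ _ := by exact_mod_cast h1
  · -- upper bound
    have hsub : ((Fintype.piFinset (fun _ : Fin d => Finset.range (n + 1))).filter
          (fun a => a ∈ E ∧ ∑ i, a i * w i ≤ n)) ⊆
        (Finset.univ.filter good).biUnion (fun S => box S n K) := by
      intro a ha
      rw [Finset.mem_filter] at ha
      rw [Finset.mem_biUnion]
      refine ⟨Finset.univ.filter (fun i => K ≤ a i),
        Finset.mem_filter.2 ⟨Finset.mem_univ _, key a ha.2.1⟩, ?_⟩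
      rw [Fintype.mem_piFinset]
      intro i
      by_cases hi : K ≤ a i
      · rw [if_pos (by simp [hi]), Finset.mem_range]
        exact Nat.lt_succ_of_le (hle a n ha.2.2 i)
      · rw [if_neg (by simp [hi]), Finset.mem_range]
        omega
    have h1 : ((Fintype.piFinset (fun _ : Fin d => Finset.range (n + 1))).filter
          (fun a => a ∈ E ∧ ∑ i, a i * w i ≤ n)).card ≤
        2 ^ d * ((n + 1) ^ S₀.card * (K + 1) ^ d) := by
      calc _ ≤ ((Finset.univ.filter good).biUnion (fun S => box S n K)).card :=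
            Finset.card_le_card hsub
        _ ≤ ∑ S ∈ Finset.univ.filter good, (box S n K).card := Finset.card_biUnion_le
        _ ≤ ∑ S ∈ Finset.univ.filter good, (n + 1) ^ S₀.card * (K + 1) ^ d := by
            refine Finset.sum_le_sum (fun S hS => ?_)
            rw [hbox]
            refine Nat.mul_le_mul (Nat.pow_le_pow_right (Nat.succ_pos _) (hmax S hS))
              (Nat.pow_le_pow_right (Nat.succ_pos _) ?_)
            calc (Sᶜ).card ≤ Fintype.card (Fin d) := Finset.card_le_univ _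
              _ = d := Fintype.card_fin d
        _ = (Finset.univ.filter good).card * ((n + 1) ^ S₀.card * (K + 1) ^ d) := by
            rw [Finset.sum_const, smul_eq_mul]
        _ ≤ 2 ^ d * ((n + 1) ^ S₀.card * (K + 1) ^ d) := by
            refine Nat.mul_le_mul_right _ ?_
            calc (Finset.univ.filter good).card ≤ (Finset.univ : Finset (Finset (Fin d))).card :=
                  Finset.card_filter_le _ _
              _ = 2 ^ d := by simp
    have h2 : (((n + 1 : ℕ) : ℝ)) ^ S₀.card ≤ (2 * (n : ℝ)) ^ S₀.card := by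
      refine pow_le_pow_left₀ (by positivity) ?_ _
      push_cast
      linarith
    calc _ ≤ ((2 ^ d * ((n + 1) ^ S₀.card * (K + 1) ^ d) : ℕ) : ℝ) := by exact_mod_cast h1
      _ = 2 ^ d * ((((n + 1 : ℕ) : ℝ)) ^ S₀.card * ((K : ℝ) + 1) ^ d) := by push_cast; ring
      _ ≤ 2 ^ d * ((2 * (n : ℝ)) ^ S₀.card * ((K : ℝ) + 1) ^ d) := by gcongr
      _ = _ := by rw [mul_pow]; ring

end Pool.Agent.GK
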